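import Mathlib

/-!
# The extended promotion sorting profile need not be unimodal

Extended promotion on labelings of a finite poset, the counts `a_k(P)` of labelings sorted after
`k` promotions, and their differences.  The poset consisting of two disjoint two-element chains and
one isolated point has sorting profile `30, 24, 30, 24, 12`, which is not unimodal.
-/

namespace Pool.Agent.Results.MP_e89dd6_co.NotUnimodal

section Defs

variable (P : Type) [Fintype P] [DecidableEq P] [PartialOrder P]
  [DecidableRel (fun x y : P => x < y)]

/-- `y` is the `L`-successor of `x`: it lies strictly above `x` and has the smallest label among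
all elements strictly above `x`. -/
def IsSuccessor {P : Type} [PartialOrder P] (L : P → ℕ) (x y : P) : Prop :=
  x < y ∧ ∀ z, x < z → L y ≤ L z

instance (L : P → ℕ) (x y : P) : Decidable (IsSuccessor L x y) := by
  unfold IsSuccessor; infer_instance

/-- Add to `S` the `L`-successors of its elements. -/
def chainStep (L : P → ℕ) (S : Finset P) : Finset P :=
  S ∪ Finset.univ.filter (fun y => ∃ x ∈ S, IsSuccessor L x y)

/-- The promotion chain `v₁, v₂, …` of `L`: all elements reached from the element labelled `1` by
passing (at most `|P|` times) to the `L`-successor. -/
def promotionChain (L : P → ℕ) : Finset P :=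
  (chainStep P L)^[Fintype.card P] (Finset.univ.filter (fun x => L x = 1))

/-- Extended promotion. An element `x` off the promotion chain gets `L x - 1`.  An element of the
promotion chain gets the smallest label strictly above it, minus one, where the minimum of the
empty set is `n + 1` (so that the maximal element of the chain gets the label `n`). -/
def promote (L : P → ℕ) (x : P) : ℕ :=
  if x ∈ promotionChain P L then
    ((Finset.univ.filter (fun y => x < y)).fold min (Fintype.card P + 1) L) - 1
  else L x - 1

/-- The labeling condition of a linear extension. -/
def IsLinearExtension (L : P → ℕ) : Prop := ∀ x y : P, x < y → L x < L y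

instance (L : P → ℕ) : Decidable (IsLinearExtension P L) := by
  unfold IsLinearExtension; infer_instance

/-- The label function with values `1, …, n` of a bijection `P ≃ Fin n`. -/
def labels (L : P ≃ Fin (Fintype.card P)) (x : P) : ℕ := (L x : ℕ) + 1

/-- `a_k(P)`: the number of labelings `L` (among all `n!`) with `∂^k(L)` a linear extension. -/
def sortedCount (k : ℕ) : ℕ :=
  (Finset.univ.filter (fun L : P ≃ Fin (Fintype.card P) =>
    IsLinearExtension P ((promote P)^[k] (labels P L)))).card

/-- The sorting profile: `â_0(P) = a_0(P)` and `â_k(P) = a_k(P) - a_{k-1}(P)` for `k ≥ 1`. -/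
def profile : ℕ → ℤ
  | 0 => sortedCount P 0
  | k + 1 => (sortedCount P (k + 1) : ℤ) - sortedCount P k

end Defs

/-- Two disjoint two-element chains and an isolated point (disjoint sum order). -/
abbrev Q : Type := Fin 2 ⊕ Fin 2 ⊕ Fin 1

instance : DecidableRel (fun x y : Q => x < y) := fun x y =>
  decidable_of_iff (Sum.LiftRel (· < ·) (Sum.LiftRel (· < ·) (· < ·)) x y) Iff.rfl

set_option maxRecDepth 100000 in
theorem count0 : sortedCount Q 0 = 30 := by decide +kernel

set_option maxRecDepth 100000 in
theorem count1 : sortedCount Q 1 = 54 := by decide +kernel

set_option maxRecDepth 100000 in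
theorem count2 : sortedCount Q 2 = 84 := by decide +kernel

theorem profile0 : profile Q 0 = 30 := by
  show (sortedCount Q 0 : ℤ) = 30
  rw [count0]; norm_num

theorem profile1 : profile Q 1 = 24 := by
  show (sortedCount Q 1 : ℤ) - sortedCount Q 0 = 24
  rw [count0, count1]; norm_num

theorem profile2 : profile Q 2 = 30 := by
  show (sortedCount Q 2 : ℤ) - sortedCount Q 1 = 30
  rw [count1, count2]; norm_num

/-- There is a finite poset whose extended promotion sorting profile is not unimodal. -/
theorem result : ∃ (P : Type) (_ : Fintype P) (_ : DecidableEq P) (_ : PartialOrder P)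
    (_ : DecidableRel (fun x y : P => x < y)) (i j l : ℕ),
    i < j ∧ j < l ∧ l ≤ Fintype.card P - 1 ∧
      profile P j < profile P i ∧ profile P j < profile P l := by
  refine ⟨Q, inferInstance, inferInstance, inferInstance, inferInstance, 0, 1, 2,
    by norm_num, by norm_num, by simp [Q], ?_, ?_⟩
  · rw [profile0, profile1]; norm_num
  · rw [profile1, profile2]; norm_num

end Pool.Agent.Results.MP_e89dd6_co.NotUnimodal
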